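import Pool.Agent.Lib.MP_45bb13_gt.Sm.Final
import Pool.Agent.Lib.MP_45bb13_gt.Sm.Word
import Pool.Agent.Lib.MP_45bb13_gt.PiC
import Pool.Agent.Lib.MP_45bb13_gt.Ori
import Pool.Agent.Lib.MP_45bb13_gt.XEv
import Pool.Agent.Lib.MP_45bb13_gt.SigB
import Pool.Agent.Lib.MP_45bb13_gt.Stmt

/-! A simply connected smooth four-manifold with even form and nonzero signature that carries
effective smooth actions of all cyclic groups of odd order. -/

namespace Pool.Agent.Results.MP_45bb13_gt.OneSmoothStructure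

open Pool.Agent.Sing Pool.Agent.Lib.MP_18d288_gt Pool.Agent.Lib.MP_45bb13_gt
open scoped Manifold ContDiff

theorem result : ∃ (X : Type) (_ : TopologicalSpace X) (_ : T2Space X) (_ : CompactSpace X)
    (_ : SimplyConnectedSpace X) (_ : ChartedSpace (EuclideanSpace ℝ (Fin 4)) X)
    (_ : IsManifold (𝓡 4) ∞ X) (μ : Ch ℤ X 4), IsFund μ ∧ EvenForm μ ∧ sig μ ≠ 0 ∧
      ∀ n : ℕ, Odd n → ∃ ρ : Multiplicative (ZMod n) →* (X ≃ₜ X), Function.Injective ρ ∧
        ∀ g, ContMDiff (𝓡 4) (𝓡 4) ∞ (ρ g) := by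
  have i1 := (chB 0).t2
  have i2 := (chB 0).compact
  have i3 := (chB 0).simply
  have hX := (chB 0).locEuc
  have hS : ∀ q, (chB q).Sm := fun q i => contDiff_fig.comp (by fun_prop)
  obtain ⟨μ, h1, h2, h2'⟩ := exists_ori hX
  obtain ⟨cs, i4, i5⟩ := (hS 0).good.final2
  refine ⟨(chB 0).X, inferInstance, i1, i2, i3, cs, i4, μ, h1,
    even_of_ev hX μ h1.1 h2 fun _ h => ev_X h,
    sig_ne_zero hX h1.1 h2' ((chB 0).bPlus_ne (by simp) μ h1.1 h2'), fun n hn => ?_⟩
  obtain ⟨q, rfl⟩ := id hn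
  obtain ⟨ρ, r1, r2⟩ := (chB q).exists_act_inj hn fun i t => by
    have : (2 * q + 1 : ℝ) ≠ 0 := by positivity
    simp only [chB]
    rw [← fig_two ((2 * q + 1) * t + 2 * (i : ℕ) / 3)]
    congr 1
    push_cast
    field_simp
    ring
  obtain ⟨e, he⟩ := (srel_ch q).drel (hS q) (hS 0)
  refine ⟨MonoidHom.mk' (fun g => (e.symm.trans (ρ g)).trans e) fun g g' => ?_, fun g g' h => ?_,
    fun g => ?_⟩
  · ext y
    simp
  · refine r1 ?_
    ext x
    simpa using DFunLike.congr_fun h (e x)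
  · exact i5 _ ((e.symm.trans (ρ g)).trans e).continuous
      ((r2 g).conj (hS q).good (hS 0).good e he)

end Pool.Agent.Results.MP_45bb13_gt.OneSmoothStructure
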